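import Pool.Prelude.Def_H_3587d628
import Pool.Agent.Lib.MP_f73e8c_lc.LP.Bridge

set_option autoImplicit false

namespace Pool.Agent.Results.MP_f73e8c_lc.LevelPlanar

open Pool.Agent.Lib.MP_f73e8c_lc.LP Pool.Agent.Shared.PolyTime

/-- One polynomial-time algorithm solves the partially disjoint paths problem on level-planar
digraphs whenever the disjointness graph is a pseudoforest, has maximum degree at most two, or is
a forest. -/
theorem result : ∃ alg : Inst → Bool × List (List Vtx), N68a2faeb.IsPolyTime alg ∧
    ∀ I : Inst, WellFormed I → LevelPlanar I →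
      (Pseudoforest (conflictGraph I) ∨ maxDeg I ≤ 2 ∨ (conflictGraph I).IsAcyclic) →
      ((alg I).1 = true → IsSolution I (alg I).2) ∧
        ((alg I).1 = false → ¬ ∃ P, IsSolution I P) := by
  refine ⟨alg, alg_pt.isPolyTime, fun I hW hL hG => ?_⟩
  have hG' : Pseudoforest (conflictGraph I) := by
    rcases hG with h | h | h
    · exact h
    · exact @pseudo_of_degree _ _ (conflictGraph I) (Classical.decRel _) h
    · exact pseudo_of_acyclic _ h
  refine ⟨fun h => isSolution_alg hW hL hG' h, fun h ⟨P, hP⟩ => ?_⟩
  obtain ⟨Q, hQ⟩ := sol_of_isSolution hW hL hP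
  have h1 : (alg I).1 = true := acc_of_sol hW hQ
  rw [h] at h1
  exact absurd h1 (by simp)

end Pool.Agent.Results.MP_f73e8c_lc.LevelPlanar
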