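import Pool.Prelude.Def_H_3587d628
import Pool.Agent.Lib.MP_f73e8c_lc.Mixed

set_option autoImplicit false

namespace Pool.Agent.Results.MP_f73e8c_lc.NPHard

open Pool.Agent.Lib.MP_f73e8c_lc Pool.Agent.Shared.CookLevin Pool.Agent.Shared.PolyTime

/-- The partially disjoint paths problem on planar digraphs is NP-hard already when the
disjointness graph has maximum degree at most three and is bipartite. -/
theorem result : ∀ L ∈ N68a2faeb.NP, ∃ f : List Bool → Inst, N68a2faeb.IsPolyTime f ∧ ∀ x,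
    WellFormed (f x) ∧ Planar (f x) ∧ maxDeg (f x) ≤ 3 ∧
      (conflictGraph (f x)).chromaticNumber ≤ 2 ∧ (conflictGraph (f x)).cliqueNum ≤ 2 ∧
      (L x = true ↔ Solvable (f x)) := by
  intro L hL
  obtain ⟨φ, hφ, h⟩ := cook_levin_e3 hL
  refine ⟨fun x => inst (mixed (φ x)) (2 + 6 * (φ x).length),
    (inst_pt (mixed_pt hφ) (by fun_prop) (by fun_prop)).isPolyTime, fun x => ?_⟩
  obtain ⟨hd, hl, hs⟩ := h x
  have hg := good_mixed hd hl
  have hc := (colorable_inst hg (pattern_mixed _)).chromaticNumber_le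
  refine ⟨wellFormed_inst hg, planar_grid _ _ _, maxDeg_inst hg, hc, ?_, ?_⟩
  · have := (SimpleGraph.cliqueNum_le_chromaticNumber).trans hc
    exact_mod_cast this
  · rw [hs, sat_mixed hl, solvable_iff hg]

end Pool.Agent.Results.MP_f73e8c_lc.NPHard
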