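import Pool.Prelude.Def_H_3587d628
import Pool.Agent.Lib.MP_f73e8c_lc.Star.Comp

set_option autoImplicit false

namespace Pool.Agent.Results.MP_f73e8c_lc.StarHard

open Pool.Agent.Lib.MP_f73e8c_lc Pool.Agent.Lib.MP_f73e8c_lc.Star Pool.Agent.Shared.CookLevin
  Pool.Agent.Shared.PolyTime

/-- The partially disjoint paths problem on planar digraphs is NP-hard already when the
disjointness graph is a star with centre `0`. -/
theorem result : ∀ L ∈ N68a2faeb.NP, ∃ f : List Bool → Inst, N68a2faeb.IsPolyTime f ∧ ∀ x,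
    WellFormed (f x) ∧ Planar (f x) ∧
      (∀ i j, (conflictGraph (f x)).Adj i j ↔ i ≠ j ∧ ((i : ℕ) = 0 ∨ (j : ℕ) = 0)) ∧
      (L x = true ↔ Solvable (f x)) := by
  intro L hL
  obtain ⟨φ, hφ, h⟩ := cook_levin_e3 hL
  refine ⟨fun x => sinst (mixed (φ x)) (2 + 6 * (φ x).length),
    (sinst_pt (mixed_pt hφ) (by fun_prop) (by fun_prop)).isPolyTime, fun x => ?_⟩
  obtain ⟨hd, hl, hs⟩ := h x
  have hg := good_mixed hd hl
  refine ⟨wellFormed_sinst hg, planar_sinst, adj_star _ _ _ _, ?_⟩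
  rw [hs, sat_mixed hl]
  exact ⟨fun ⟨τ, h0, h1, hτ⟩ => Star.complete hg (pattern_mixed _) τ h0 h1 hτ,
    Star.sound hg (pattern_mixed _)⟩

end Pool.Agent.Results.MP_f73e8c_lc.StarHard
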